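import Pool.Agent.K7.H9.HE.Res

set_option autoImplicit false

/-!
# Horrocks' inequality for equivariant modules over spaces of block diagonal matrices

Let `k` be a field of characteristic `0` and `S = k[x_{ac}]` the polynomial ring whose variables are
the entries of block diagonal `r × c` matrices: there are maps `p` and `q` from the rows and from
the columns to a set of blocks, and `x_{ac}` is a variable if `p a = q c`. (One block: all `r × c`
matrices. `r = c` blocks of size `1 × 1`: any number of variables with the torus acting.) The group
`G = ∏_t GL(rows of the block t) × GL(columns of the block t)` acts on `S`. We prove Horrocks'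
inequality `rank F_i ≥ binom(N, i)`, `N` the number of the variables, for every nonzero
`G`-equivariant `S`-module `M` of finite length and every resolution `F` of `M` by finite free
modules. The action of `G` on `M` enters through its Lie algebra: operators `E a b` and `E' a b`
for the matrix units, with the commutation relations of matrix units, acting compatibly with the
derivations `x_{bc} ↦ x_{ac}` and `x_{cb} ↦ x_{ca}` of `S`, and such that `M` is the sum of its
weight spaces for integer weights.
-/

namespace Pool.Agent.Results.MP_e2ce73_al.EquivariantMatrices

open MvPolynomial Pool.Agent.K7.H9.HE Pool.Agent.W650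

universe u v

/-- The entries of the diagonal blocks of `r × c` matrices; the blocks of the rows and of the
columns are given by `p` and `q`. -/
abbrev Entry {r c : ℕ} {T : Type} (p : Fin r → T) (q : Fin c → T) : Type :=
  {x : Fin r × Fin c // p x.1 = q x.2}

/-- The relations of the matrix units `E a b`, where `a` and `b` are in the same block of `p`. -/
def Units {k : Type u} [Field k] {M : Type v} [AddCommGroup M] [Module k M] {r : ℕ} {T : Type}
    (p : Fin r → T) (E : Fin r → Fin r → Module.End k M) : Prop :=
  ∀ a b a' b', p a = p b → p a' = p b' →
    E a b * E a' b' - E a' b' * E a b = (if b = a' then E a b' else 0) - (if b' = a then E a' b else 0)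

/-- An equivariant module: actions `E` and `E'` of the Lie algebras of the block diagonal `r × r`
and `c × c` matrices, which commute, are compatible with the variables, and have integer weights. -/
structure Equivariant {k : Type u} [Field k] {r c : ℕ} {T : Type} (p : Fin r → T) (q : Fin c → T)
    {M : Type v} [AddCommGroup M] [Module k M] [Module (MvPolynomial (Entry p q) k) M]
    (E : Fin r → Fin r → Module.End k M) (E' : Fin c → Fin c → Module.End k M) : Prop where
  rows : Units p E
  cols : Units q E'
  comm : ∀ a b, p a = p b → ∀ a' b', q a' = q b' → E a b * E' a' b' = E' a' b' * E a b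
  /-- `[E a b, x_{bc}] = x_{ac}` -/
  row_var : ∀ x y : Entry p q, x.1.2 = y.1.2 → ∀ m : M,
    E y.1.1 x.1.1 ((X x : MvPolynomial (Entry p q) k) • m) =
      (X x : MvPolynomial (Entry p q) k) • E y.1.1 x.1.1 m + (X y : MvPolynomial (Entry p q) k) • m
  /-- `[E a b, x_{dc}] = 0` for `d ≠ b` -/
  row_var_ne : ∀ a b, p a = p b → ∀ x : Entry p q, x.1.1 ≠ b → ∀ m : M,
    E a b ((X x : MvPolynomial (Entry p q) k) • m) = (X x : MvPolynomial (Entry p q) k) • E a b m
  /-- `[E' a b, x_{cb}] = x_{ca}` -/
  col_var : ∀ x y : Entry p q, x.1.1 = y.1.1 → ∀ m : M,
    E' y.1.2 x.1.2 ((X x : MvPolynomial (Entry p q) k) • m) =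
      (X x : MvPolynomial (Entry p q) k) • E' y.1.2 x.1.2 m + (X y : MvPolynomial (Entry p q) k) • m
  /-- `[E' a b, x_{cd}] = 0` for `d ≠ b` -/
  col_var_ne : ∀ a b, q a = q b → ∀ x : Entry p q, x.1.2 ≠ b → ∀ m : M,
    E' a b ((X x : MvPolynomial (Entry p q) k) • m) = (X x : MvPolynomial (Entry p q) k) • E' a b m
  /-- `M` is spanned by vectors `m` with `E a a m = ν a • m` and `E' b b m = ν' b • m` for integers
  `ν a` and `ν' b` -/
  weights : Submodule.span k {m : M | ∃ (ν : Fin r → ℤ) (ν' : Fin c → ℤ),
    (∀ a, E a a m = (ν a : k) • m) ∧ ∀ b, E' b b m = (ν' b : k) • m} = ⊤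

section proof

variable {k : Type u} [Field k] {r c : ℕ} {T : Type} {p : Fin r → T} {q : Fin c → T}

/-- the enumeration of the variables as a grid -/
def gr {n : ℕ} (e : Fin n ≃ Entry p q) : Grid p q n where
  row i := (e i).1.1
  col i := (e i).1.2
  compat i := (e i).2
  inj i j h h' := e.injective (Subtype.ext (Prod.ext h h'))
  surj a b h := ⟨e.symm ⟨(a, b), h⟩, by simp, by simp⟩

variable [DecidableEq T] {M : Type v} [AddCommGroup M] [Module k M]
  [Module (MvPolynomial (Entry p q) k) M]
  {E : Fin r → Fin r → Module.End k M} {E' : Fin c → Fin c → Module.End k M}

/-- the representation -/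
def rep (hE : Equivariant p q E E') : Rep k (PQ p q) M where
  G
    | Sum.inl a, Sum.inl b => E a b
    | Sum.inr a, Sum.inr b => E' a b
    | _, _ => 0
  comm := by
    intro u v w z h h'
    cases u with
    | inl a =>
      cases v with
      | inr b => simp [PQ] at h
      | inl b =>
        have hab : p a = p b := by simpa [PQ] using h
        cases w with
        | inl d =>
          cases z with
          | inr e => simp [PQ] at h'
          | inl e =>
            have hde : p d = p e := by simpa [PQ] using h'
            have := hE.rows a b d e hab hde
            simpa using this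
        | inr d =>
          cases z with
          | inl e => simp [PQ] at h'
          | inr e =>
            have hde : q d = q e := by simpa [PQ] using h'
            have := hE.comm a b hab d e hde
            simp [this]
    | inr a =>
      cases v with
      | inl b => simp [PQ] at h
      | inr b =>
        have hab : q a = q b := by simpa [PQ] using h
        cases w with
        | inl d =>
          cases z with
          | inr e => simp [PQ] at h'
          | inl e =>
            have hde : p d = p e := by simpa [PQ] using h'
            have := hE.comm d e hde a b hab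
            simp [this]
        | inr d =>
          cases z with
          | inl e => simp [PQ] at h'
          | inr e =>
            have hde : q d = q e := by simpa [PQ] using h'
            have := hE.cols a b d e hab hde
            simpa using this
  wts := by
    rw [eq_top_iff, ← hE.weights]
    refine Submodule.span_le.2 ?_
    rintro m ⟨ν, ν', h1, h2⟩
    refine Submodule.mem_iSup_of_mem (Sum.elim ν ν') ?_
    intro u
    cases u with
    | inl a => exact h1 a
    | inr b => exact h2 b

variable [IsScalarTower k (MvPolynomial (Entry p q) k) M]

theorem eqv {n : ℕ} (e : Fin n ≃ Entry p q) (hE : Equivariant p q E E') :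
    ((gr e).V k).Eqv (rep hE) (opv k (cS k e) M) := by
  classical
  intro u v huv j m
  have ho : ∀ (i : Fin n) (y : M), opv k (cS k e) M i y = (X (e i) : MvPolynomial (Entry p q) k) • y := by
    intro i y
    rw [opv_apply, cS_apply]
  simp only [ho]
  cases u with
  | inl a =>
    cases v with
    | inr b => simp [PQ] at huv
    | inl b =>
      have hab : p a = p b := by simpa [PQ] using huv
      change E a b _ = _ • E a b m + ∑ i : Fin n, (gr e).rowM k a b i j • _
      by_cases hj : (e j).1.1 = b
      · let y : Entry p q := ⟨(a, (e j).1.2), by
          show p a = q (e j).1.2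
          rw [hab, ← hj]
          exact (e j).2⟩
        rw [Finset.sum_eq_single (e.symm y)]
        · have h1 : (gr e).rowM k a b (e.symm y) j = 1 := by
            rw [Grid.rowM_apply, if_pos]
            refine ⟨?_, hj, ?_⟩
            · show (e (e.symm y)).1.1 = a
              rw [Equiv.apply_symm_apply]
            · show (e (e.symm y)).1.2 = (e j).1.2
              rw [Equiv.apply_symm_apply]
          rw [h1, one_smul, Equiv.apply_symm_apply]
          have := hE.row_var (e j) y rfl m
          rw [hj] at this
          exact this
        · intro i _ hi
          have h1 : (gr e).rowM k a b i j = 0 := by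
            rw [Grid.rowM_apply, if_neg]
            rintro ⟨h2, -, h3⟩
            apply hi
            rw [Equiv.eq_symm_apply]
            exact Subtype.ext (Prod.ext h2 h3)
          rw [h1, zero_smul]
        · simp
      · rw [hE.row_var_ne a b hab (e j) hj m]
        rw [Finset.sum_eq_zero, add_zero]
        intro i _
        have h1 : (gr e).rowM k a b i j = 0 := by
          rw [Grid.rowM_apply, if_neg]
          rintro ⟨-, h2, -⟩
          exact hj h2
        rw [h1, zero_smul]
  | inr a =>
    cases v with
    | inl b => simp [PQ] at huv
    | inr b =>
      have hab : q a = q b := by simpa [PQ] using huv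
      change E' a b _ = _ • E' a b m + ∑ i : Fin n, (gr e).tr.rowM k a b i j • _
      by_cases hj : (e j).1.2 = b
      · let y : Entry p q := ⟨((e j).1.1, a), by
          show p (e j).1.1 = q a
          rw [hab, ← hj]
          exact (e j).2⟩
        rw [Finset.sum_eq_single (e.symm y)]
        · have h1 : (gr e).tr.rowM k a b (e.symm y) j = 1 := by
            rw [Grid.rowM_apply, if_pos]
            refine ⟨?_, hj, ?_⟩
            · show (e (e.symm y)).1.2 = a
              rw [Equiv.apply_symm_apply]
            · show (e (e.symm y)).1.1 = (e j).1.1
              rw [Equiv.apply_symm_apply]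
          rw [h1, one_smul, Equiv.apply_symm_apply]
          have := hE.col_var (e j) y rfl m
          rw [hj] at this
          exact this
        · intro i _ hi
          have h1 : (gr e).tr.rowM k a b i j = 0 := by
            rw [Grid.rowM_apply, if_neg]
            rintro ⟨h2, -, h3⟩
            apply hi
            rw [Equiv.eq_symm_apply]
            exact Subtype.ext (Prod.ext h3 h2)
          rw [h1, zero_smul]
        · simp
      · rw [hE.col_var_ne a b hab (e j) hj m]
        rw [Finset.sum_eq_zero, add_zero]
        intro i _
        have h1 : (gr e).tr.rowM k a b i j = 0 := by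
          rw [Grid.rowM_apply, if_neg]
          rintro ⟨-, h2, -⟩
          exact hj h2
        rw [h1, zero_smul]

end proof

/-- **Theorem.** Let `M` be a nonzero equivariant module of finite length over the polynomial ring
in the `N` entries of the diagonal blocks of `r × c` matrices. Then every resolution of `M` by
finite free modules `F_i` has `rank F_i ≥ binom(N, i)`. -/
theorem result (k : Type u) [Field k] [CharZero k] (r c : ℕ) (T : Type) [DecidableEq T]
    (p : Fin r → T) (q : Fin c → T)
    (M : Type v) [AddCommGroup M] [Module k M] [FiniteDimensional k M] [Nontrivial M]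
    [Module (MvPolynomial (Entry p q) k) M] [IsScalarTower k (MvPolynomial (Entry p q) k) M]
    (E : Fin r → Fin r → Module.End k M) (E' : Fin c → Fin c → Module.End k M)
    (hE : Equivariant p q E E')
    (F : ℕ → Type v) [∀ i, AddCommGroup (F i)] [∀ i, Module (MvPolynomial (Entry p q) k) (F i)]
    [∀ i, Module.Free (MvPolynomial (Entry p q) k) (F i)]
    [∀ i, Module.Finite (MvPolynomial (Entry p q) k) (F i)]
    (d : ∀ i, F (i + 1) →ₗ[MvPolynomial (Entry p q) k] F i)
    (ε : F 0 →ₗ[MvPolynomial (Entry p q) k] M) (hε : Function.Surjective ε)
    (hd0 : LinearMap.range (d 0) = LinearMap.ker ε)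
    (hd : ∀ i, LinearMap.range (d (i + 1)) = LinearMap.ker (d i)) (i : ℕ) :
    (Fintype.card (Entry p q)).choose i ≤ Module.finrank (MvPolynomial (Entry p q) k) (F i) :=
  ((gr (Fintype.equivFin (Entry p q)).symm).bound (rep hE) (eqv _ hE) i).trans
    (finrank_H_le _ F d ε hε hd0 hd i)

end Pool.Agent.Results.MP_e2ce73_al.EquivariantMatrices
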