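import Pool.Agent.K7.H9.HL.SoSep

set_option autoImplicit false

/-!
# Horrocks' inequality for modules equivariant under orthogonal groups

Let `k` be a field of characteristic `0`, `V = ⨁_t V_t` a finite direct sum, `V_t` of dimension
`m t` with basis `x_{t,i}` (`i < m t`) and the split quadratic form
`q_t = ∑_i x_{t,i} x_{t,m_t-1-i}`, and let `S = Sym V` be the polynomial ring in the `x_{t,i}`.
We prove Horrocks' inequality `rank F_i ≥ binom(dim V, i)` for every nonzero `S`-module `M` of
finite dimension over `k` which is equivariant under the product of the groups of orthogonal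
similitudes `GO(V_t)`, and every resolution `F` of `M` by finite free modules. For one block these
are the graded `k[x_1, ..., x_m]`-modules with an action of `SO_m` (or `Spin_m`).

The action enters through the Lie algebra: a representation `ρ` on `M` of the Lie algebra
of the block diagonal matrices preserving every `q_t` up to a scalar (`Similitude`), such that
`A (x_a y) = x_a (A y) + (A x_a) y`, and such that `M` is the sum of its weight spaces for
half-integral weights.
-/

namespace Pool.Agent.Results.MP_e2ce73_al.OrthogonalGroups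

open MvPolynomial Pool.Agent.K7.H9.HL Pool.Agent.W650
open Pool.Agent.K7.H9.HE (cS cS_apply finrank_H_le)

universe u v

/-- The indices of the variables: block `t`, position `i` in the block. -/
abbrev Ix {T : Type} (m : T → ℕ) : Type := Σ t : T, Fin (m t)

/-- `A` is block diagonal and preserves each of the quadratic forms `∑_i x_{t,i} x_{t,m_t-1-i}` up
to a scalar: `A_{i,j} + A_{m-1-j,m-1-i} = c δ_{ij}` in each block. -/
def Similitude {k : Type u} [Field k] {T : Type} {m : T → ℕ} (A : Matrix (Ix m) (Ix m) k) : Prop :=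
  (∀ a b, a.1 ≠ b.1 → A a b = 0) ∧ ∀ t, ∃ c : k, ∀ i j : Fin (m t),
    A ⟨t, i⟩ ⟨t, j⟩ + A ⟨t, j.rev⟩ ⟨t, i.rev⟩ = if i = j then c else 0

/-- `y` is a weight vector of half-integral weight: `2A` acts on it as an integer for every
diagonal matrix `A` of the Lie algebra with integer entries. -/
def HalfIntegral {k : Type u} [Field k] {T : Type} {m : T → ℕ} {M : Type v} [AddCommGroup M]
    [Module k M] (ρ : Matrix (Ix m) (Ix m) k → Module.End k M) (y : M) : Prop :=
  ∀ A : Matrix (Ix m) (Ix m) k, Similitude A → (∀ a b, a ≠ b → A a b = 0) →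
    (∀ a, ∃ z : ℤ, A a a = z) → ∃ c : ℤ, (2 : k) • ρ A y = (c : k) • y

/-- An equivariant module: a representation `ρ` on `M` of the Lie algebra of the matrices `A` with
`Similitude A`, compatible with its action `A x_a = ∑ b, A b a x_b` on the variables, with
half-integral weights. (The values of `ρ` at other matrices do not matter.) -/
structure Equivariant {k : Type u} [Field k] {T : Type} [Fintype T] (m : T → ℕ)
    {M : Type v} [AddCommGroup M] [Module k M] [Module (MvPolynomial (Ix m) k) M]
    (ρ : Matrix (Ix m) (Ix m) k → Module.End k M) : Prop where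
  /-- `ρ` is additive -/
  add : ∀ A B, Similitude A → Similitude B → ρ (A + B) = ρ A + ρ B
  /-- `ρ` is linear -/
  smul : ∀ (c : k) (A), Similitude A → ρ (c • A) = c • ρ A
  /-- `ρ [A, B] = [ρ A, ρ B]` -/
  bracket : ∀ A B, Similitude A → Similitude B → ρ (A * B - B * A) = ρ A * ρ B - ρ B * ρ A
  /-- `A (x_a y) = x_a (A y) + (A x_a) y` -/
  var : ∀ A, Similitude A → ∀ (a : Ix m) (y : M),
    ρ A ((X a : MvPolynomial (Ix m) k) • y) = (X a : MvPolynomial (Ix m) k) • ρ A y +
      ∑ b, A b a • ((X b : MvPolynomial (Ix m) k) • y)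
  /-- `M` is the sum of its weight spaces -/
  weights : Submodule.span k {y | HalfIntegral ρ y} = ⊤

section proof

variable {k : Type u} [Field k] {T : Type} [Fintype T] [DecidableEq T] (m : T → ℕ)

theorem card_lt (n : ℕ) (i : Fin n) : (Finset.univ.filter fun j : Fin n => j < i).card = i := by
  have h : (Finset.univ.filter fun j : Fin n => j < i) = Finset.Iio i := by
    ext j
    simp
  rw [h, Fin.card_Iio]

/-- the blocks -/
def bl : Bl (Ix m) T where
  p := Sigma.fst
  rv a := ⟨a.1, a.2.rev⟩
  o a := 2 * ((a.2 : ℕ) : ℤ) - ((m a.1 : ℤ) - 1)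
  p_rv _ := rfl
  o_rv := by
    rintro ⟨t, i⟩
    simp only [Fin.val_rev]
    have := i.2
    omega
  inj := by
    rintro ⟨t, i⟩ ⟨s, j⟩ h h'
    obtain rfl : t = s := h
    congr 1
    apply Fin.ext
    simp only at h'
    omega
  pos := by
    rintro ⟨t, i⟩
    have h1 : (Finset.univ.filter fun b : Ix m => b.1 = t) =
        (Finset.univ : Finset (Fin (m t))).map ⟨fun j => (⟨t, j⟩ : Ix m), fun a b h => by
          simpa using h⟩ := by
      ext ⟨s, j⟩
      simp only [Finset.mem_filter, Finset.mem_univ, true_and, Finset.mem_map,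
        Function.Embedding.coeFn_mk]
      constructor
      · rintro rfl
        exact ⟨j, rfl⟩
      · rintro ⟨j', h⟩
        exact (congrArg Sigma.fst h).symm
    have h2 : (Finset.univ.filter fun b : Ix m => b.1 = t ∧
        2 * ((b.2 : ℕ) : ℤ) - ((m b.1 : ℤ) - 1) < 2 * ((i : ℕ) : ℤ) - ((m t : ℤ) - 1)) =
        ((Finset.univ : Finset (Fin (m t))).filter fun j => j < i).map
          ⟨fun j => (⟨t, j⟩ : Ix m), fun a b h => by simpa using h⟩ := by
      ext ⟨s, j⟩
      simp only [Finset.mem_filter, Finset.mem_univ, true_and, Finset.mem_map,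
        Function.Embedding.coeFn_mk]
      constructor
      · rintro ⟨rfl, h⟩
        refine ⟨j, ?_, rfl⟩
        rw [Fin.lt_def]
        omega
      · rintro ⟨j', h, h'⟩
        cases h'
        rw [Fin.lt_def] at h
        exact ⟨rfl, by omega⟩
    simp only
    rw [h1, h2, Finset.card_map, Finset.card_map, Finset.card_univ, Fintype.card_fin, card_lt]
  step := by
    rintro ⟨t, i⟩ h
    simp only at h
    have := i.2
    refine ⟨⟨t, ⟨i - 1, by omega⟩⟩, rfl, ?_⟩
    simp only
    omega

theorem sim_iff (X : Matrix (Ix m) (Ix m) k) : Similitude X ↔ X ∈ (bl m).GO k := by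
  rw [Bl.mem_GO]
  constructor
  · rintro ⟨h1, h2⟩
    choose c hc using h2
    refine ⟨h1, c, ?_⟩
    ext ⟨t, i⟩ ⟨s, j⟩
    rw [Matrix.add_apply, Bl.ta_apply, Matrix.diagonal_apply]
    by_cases h : t = s
    · subst h
      have := hc t i j
      change X ⟨t, i⟩ ⟨t, j⟩ + X ⟨t, j.rev⟩ ⟨t, i.rev⟩ = _
      rw [this]
      by_cases hij : i = j
      · subst hij
        rw [if_pos rfl, if_pos rfl]
        rfl
      · rw [if_neg hij, if_neg]
        intro h
        exact hij (by simpa using h)
    · have e1 : X ⟨t, i⟩ ⟨s, j⟩ = 0 := h1 _ _ h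
      have e2 : X ((bl m).rv ⟨s, j⟩) ((bl m).rv ⟨t, i⟩) = 0 := h1 _ _ (Ne.symm h)
      rw [e1, e2, add_zero, if_neg]
      intro h'
      exact h (congrArg Sigma.fst h')
  · rintro ⟨h1, c, hc⟩
    refine ⟨h1, fun t => ⟨c t, fun i j => ?_⟩⟩
    have := congrFun (congrFun hc ⟨t, i⟩) ⟨t, j⟩
    rw [Matrix.add_apply, Bl.ta_apply, Matrix.diagonal_apply] at this
    change X ⟨t, i⟩ ⟨t, j⟩ + X ⟨t, j.rev⟩ ⟨t, i.rev⟩ = _ at this
    rw [this]
    by_cases hij : i = j
    · subst hij
      rw [if_pos rfl, if_pos rfl]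
      rfl
    · rw [if_neg hij, if_neg]
      intro h
      exact hij (by simpa using h)

variable {m} [CharZero k] {M : Type v} [AddCommGroup M] [Module k M]
  [Module (MvPolynomial (Ix m) k) M] {ρ : Matrix (Ix m) (Ix m) k → Module.End k M}

/-- the representation -/
def rep (hE : Equivariant m ρ) : Rep ((bl m).tri k) M where
  ρ :=
    { toFun := fun X => ρ X.1
      map_add' := fun X Y => hE.add _ _ ((sim_iff m _).2 X.2) ((sim_iff m _).2 Y.2)
      map_smul' := fun a X => hE.smul a _ ((sim_iff m _).2 X.2) }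
  br := fun X Y => hE.bracket _ _ ((sim_iff m _).2 X.2) ((sim_iff m _).2 Y.2)
  wts := by
    rw [eq_top_iff, ← hE.weights]
    refine Submodule.span_le.2 ?_
    intro y hy
    have h1 : ∀ i : Ix m, ∃ c : ℤ, (2 : k) • ρ ((bl m).Fm k i i) y = (c : k) • y := by
      intro i
      refine hy _ ((sim_iff m _).2 ((bl m).Fm_mem i i)) (fun a b hab => ?_) (fun a => ?_)
      · rw [Bl.Fm_apply, if_pos rfl, if_neg (fun h => hab (h.1.symm.trans h.2)),
          if_neg (fun h => hab (h.1.symm.trans h.2)), sub_zero]
      · rw [Bl.Fm_apply, if_pos rfl]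
        refine ⟨(if i = a ∧ i = a then 1 else 0) -
          (if (bl m).rv i = a ∧ (bl m).rv i = a then 1 else 0), ?_⟩
        push_cast
        rfl
    have h2 : ∀ t : T, ∃ c : ℤ, (2 : k) • ρ ((bl m).Dm k t) y = (c : k) • y := by
      intro t
      refine hy _ ((sim_iff m _).2 ((bl m).Dm_mem t)) (fun a b hab => ?_) (fun a => ?_)
      · rw [Bl.Dm, Matrix.diagonal_apply_ne _ hab]
      · rw [Bl.Dm, Matrix.diagonal_apply_eq]
        exact ⟨if (bl m).p a = t then 1 else 0, by push_cast; rfl⟩
    choose c hc using h1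
    choose d hd using h2
    refine Submodule.mem_iSup_of_mem (Sum.elim c d) ?_
    rintro (i | t)
    · change ρ ((2 : k) • (bl m).Fm k i i) y = _
      rw [hE.smul _ _ ((sim_iff m _).2 ((bl m).Fm_mem i i)), LinearMap.smul_apply, hc]
      rfl
    · change ρ ((2 : k) • (bl m).Dm k t) y = _
      rw [hE.smul _ _ ((sim_iff m _).2 ((bl m).Dm_mem t)), LinearMap.smul_apply, hd]
      rfl

variable [IsScalarTower k (MvPolynomial (Ix m) k) M]

theorem eqv {N : ℕ} (e : Fin N ≃ Ix m) (hE : Equivariant m ρ) :
    ((bl m).V k e).Eqv (rep hE) (opv k (cS k e) M) := by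
  intro X j y
  have ho : ∀ (i : Fin N) (y : M), opv k (cS k e) M i y =
      (MvPolynomial.X (e i) : MvPolynomial (Ix m) k) • y := by
    intro i y
    rw [opv_apply, cS_apply]
  simp only [ho]
  have h1 := hE.var X.1 ((sim_iff m _).2 X.2) (e j) y
  change ρ X.1 _ = _ • ρ X.1 y +
    ∑ i : Fin N, X.1 (e i) (e j) • ((MvPolynomial.X (e i) : MvPolynomial (Ix m) k) • y)
  rw [h1]
  congr 1
  exact (e.sum_comp fun b => X.1 b (e j) • ((MvPolynomial.X b : MvPolynomial (Ix m) k) • y)).symm

end proof

/-- **Theorem.** Let `M` be a nonzero module, finite-dimensional over `k`, over the polynomial ring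
in the `∑ t, m t` variables `x_{t,i}`, equivariant under the product of the groups of orthogonal
similitudes of the blocks. Then every resolution of `M` by finite free modules `F_i` has
`rank F_i ≥ binom(∑ t, m t, i)`. -/
theorem result (k : Type u) [Field k] [CharZero k] (T : Type) [Fintype T] (m : T → ℕ)
    (M : Type v) [AddCommGroup M] [Module k M] [FiniteDimensional k M] [Nontrivial M]
    [Module (MvPolynomial (Ix m) k) M] [IsScalarTower k (MvPolynomial (Ix m) k) M]
    (ρ : Matrix (Ix m) (Ix m) k → Module.End k M) (hρ : Equivariant m ρ)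
    (F : ℕ → Type v) [∀ i, AddCommGroup (F i)] [∀ i, Module (MvPolynomial (Ix m) k) (F i)]
    [∀ i, Module.Free (MvPolynomial (Ix m) k) (F i)]
    [∀ i, Module.Finite (MvPolynomial (Ix m) k) (F i)]
    (d : ∀ i, F (i + 1) →ₗ[MvPolynomial (Ix m) k] F i)
    (ε : F 0 →ₗ[MvPolynomial (Ix m) k] M) (hε : Function.Surjective ε)
    (hd0 : LinearMap.range (d 0) = LinearMap.ker ε)
    (hd : ∀ i, LinearMap.range (d (i + 1)) = LinearMap.ker (d i)) (i : ℕ) :
    (∑ t, m t).choose i ≤ Module.finrank (MvPolynomial (Ix m) k) (F i) := by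
  classical
  have hcard : Fintype.card (Ix m) = ∑ t, m t := by simp
  rw [← hcard]
  exact ((bl m).so_bound (Fintype.equivFin (Ix m)).symm (rep hρ) (eqv _ hρ) i).trans
    (finrank_H_le _ F d ε hε hd0 hd i)

end Pool.Agent.Results.MP_e2ce73_al.OrthogonalGroups
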