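import Pool.Agent.K7.H9.HE.PairRes

set_option autoImplicit false

/-!
# Horrocks' inequality for equivariant modules over spaces of symmetric matrices

Let `k` be a field of characteristic `0` and `S = k[x_{ab}]` the polynomial ring whose variables are
the entries on and above the diagonal of the generic symmetric block diagonal `n × n` matrix; the
blocks are given by a map `p` from the indices to a set. (One block: all symmetric `n × n`
matrices.) The group `G = ∏_t GL(block t)` acts on `S` by `X ↦ g X gᵀ`. We prove Horrocks'
inequality `rank F_i ≥ binom(N, i)`, `N` the number of the variables, for every nonzero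
`G`-equivariant `S`-module `M` of finite length and every resolution `F` of `M` by finite free
modules. The action of `G` on `M` enters through its Lie algebra: operators `E a b` for the matrix
units, with the commutation relations of matrix units, acting compatibly with the derivations
`E a b` of `S`, and such that `M` is the sum of its weight spaces for integer weights.
-/

namespace Pool.Agent.Results.MP_e2ce73_al.SymmetricMatrices

open MvPolynomial Pool.Agent.K7.H9.HE Pool.Agent.W650

universe u v

/-- The positions on and above the diagonal in the diagonal blocks of `n × n` matrices; the blocks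
are given by `p`. -/
abbrev Entry {n : ℕ} {T : Type} (p : Fin n → T) : Type :=
  {x : Fin n × Fin n // p x.1 = p x.2 ∧ x.1 ≤ x.2}

/-- The entries `x_{ab} = x_{ba}` of the generic symmetric block diagonal matrix (zero outside the
blocks). -/
noncomputable def entry (k : Type u) [Field k] {n : ℕ} {T : Type} [DecidableEq T] (p : Fin n → T)
    (a b : Fin n) : MvPolynomial (Entry p) k :=
  if h : p a = p b ∧ a ≤ b then X ⟨(a, b), h⟩
  else if h : p b = p a ∧ b ≤ a then X ⟨(b, a), h⟩ else 0

/-- An equivariant module: an action `E` of the Lie algebra of the block diagonal `n × n` matrices,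
compatible with its action on the variables, with integer weights. -/
structure Equivariant {k : Type u} [Field k] {n : ℕ} {T : Type} [DecidableEq T] (p : Fin n → T)
    {M : Type v} [AddCommGroup M] [Module k M] [Module (MvPolynomial (Entry p) k) M]
    (E : Fin n → Fin n → Module.End k M) : Prop where
  /-- the relations of the matrix units -/
  units : ∀ a b a' b', p a = p b → p a' = p b' →
    E a b * E a' b' - E a' b' * E a b = (if b = a' then E a b' else 0) - (if b' = a then E a' b else 0)
  /-- `[E u v, x_{ab}] = δ_{va} x_{ub} + δ_{vb} x_{au}` -/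
  var : ∀ u v, p u = p v → ∀ a b, ∀ m : M, E u v (entry k p a b • m) = entry k p a b • E u v m +
    (if v = a then entry k p u b • m else 0) + (if v = b then entry k p a u • m else 0)
  /-- `M` is spanned by vectors `m` with `E a a m = ν a • m` for integers `ν a` -/
  weights : Submodule.span k {m : M | ∃ ν : Fin n → ℤ, ∀ a, E a a m = (ν a : k) • m} = ⊤

section proof

variable {k : Type u} [Field k] {n : ℕ} {T : Type} [DecidableEq T] {p : Fin n → T}
  {M : Type v} [AddCommGroup M] [Module k M] [Module (MvPolynomial (Entry p) k) M]
  {E : Fin n → Fin n → Module.End k M}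

/-- the representation -/
def rep (hE : Equivariant p E) : Rep k p M where
  G := E
  comm := hE.units
  wts := by
    rw [eq_top_iff, ← hE.weights]
    refine Submodule.span_le.2 ?_
    rintro m ⟨ν, h1⟩
    exact Submodule.mem_iSup_of_mem ν h1

/-- the enumeration -/
def tr {N : ℕ} (e : Fin N ≃ Entry p) : Fin N ≃ {x : Fin n × Fin n // ok false p x} :=
  e.trans (Equiv.subtypeEquivRight fun x => by simp [ok])

theorem tr_val {N : ℕ} (e : Fin N ≃ Entry p) (j : Fin N) : (tr e j).1 = (e j).1 := rfl

variable [IsScalarTower k (MvPolynomial (Entry p) k) M]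

theorem xe_entry {N : ℕ} (e : Fin N ≃ Entry p) (m : M) (a b : Fin n) :
    xe k (tr e) (fun i => (X (e i) : MvPolynomial (Entry p) k) • m) a b = entry k p a b • m := by
  have h1 : ∀ (a b : Fin n) (h : ok false p (a, b)), (tr e).symm ⟨(a, b), h⟩ =
      e.symm ⟨(a, b), by simpa [ok] using h⟩ := by
    intro a b h
    rw [Equiv.symm_apply_eq]
    apply Subtype.ext
    rw [tr_val, Equiv.apply_symm_apply]
  have hok : ∀ a b : Fin n, ok false p (a, b) ↔ p a = p b ∧ a ≤ b := by
    intro a b
    simp [ok]
  rw [xe_eq, entry]
  by_cases h : p a = p b ∧ a ≤ b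
  · rw [dif_pos ((hok a b).2 h), dif_pos h, h1]
    rw [dif_neg]
    · simp
    · rintro ⟨h2, h3⟩
      exact h3 (le_antisymm h.2 ((hok b a).1 h2).2)
  · rw [dif_neg (fun h' => h ((hok a b).1 h')), dif_neg h]
    by_cases h2 : p b = p a ∧ b ≤ a
    · have h3 : a ≠ b := by
        rintro rfl
        exact h h2
      rw [dif_pos ⟨(hok b a).2 h2, h3⟩, dif_pos h2, h1]
      simp [eps]
    · rw [dif_neg (fun h' => h2 ((hok b a).1 h'.1)), dif_neg h2]
      simp

theorem eqv {N : ℕ} (e : Fin N ≃ Entry p) (hE : Equivariant p E) :
    (pV k (tr e)).Eqv (rep hE) (opv k (cS k e) M) := by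
  intro u v huv j m
  have ho : ∀ (i : Fin N) (y : M), opv k (cS k e) M i y = (X (e i) : MvPolynomial (Entry p) k) • y := by
    intro i y
    rw [opv_apply, cS_apply]
  simp only [ho]
  change E u v _ = _ • E u v m + ∑ i : Fin N, pA k (tr e) u v i j • _
  rw [sum_A (tr e) (fun i => (X (e i) : MvPolynomial (Entry p) k) • m), tr_val, xe_entry, xe_entry]
  have h1 : (X (e j) : MvPolynomial (Entry p) k) = entry k p (e j).1.1 (e j).1.2 := by
    rw [entry, dif_pos (e j).2]
  rw [h1, hE.var u v huv, add_assoc]

end proof

/-- **Theorem.** Let `M` be a nonzero equivariant module of finite length over the polynomial ring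
in the `N` entries of the generic symmetric block diagonal matrix. Then every resolution of `M` by
finite free modules `F_i` has `rank F_i ≥ binom(N, i)`. -/
theorem result (k : Type u) [Field k] [CharZero k] (n : ℕ) (T : Type) [DecidableEq T]
    (p : Fin n → T)
    (M : Type v) [AddCommGroup M] [Module k M] [FiniteDimensional k M] [Nontrivial M]
    [Module (MvPolynomial (Entry p) k) M] [IsScalarTower k (MvPolynomial (Entry p) k) M]
    (E : Fin n → Fin n → Module.End k M) (hE : Equivariant p E)
    (F : ℕ → Type v) [∀ i, AddCommGroup (F i)] [∀ i, Module (MvPolynomial (Entry p) k) (F i)]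
    [∀ i, Module.Free (MvPolynomial (Entry p) k) (F i)]
    [∀ i, Module.Finite (MvPolynomial (Entry p) k) (F i)]
    (d : ∀ i, F (i + 1) →ₗ[MvPolynomial (Entry p) k] F i)
    (ε : F 0 →ₗ[MvPolynomial (Entry p) k] M) (hε : Function.Surjective ε)
    (hd0 : LinearMap.range (d 0) = LinearMap.ker ε)
    (hd : ∀ i, LinearMap.range (d (i + 1)) = LinearMap.ker (d i)) (i : ℕ) :
    (Fintype.card (Entry p)).choose i ≤ Module.finrank (MvPolynomial (Entry p) k) (F i) :=
  (p_bound (tr (Fintype.equivFin (Entry p)).symm) (rep hE) (eqv _ hE) i).trans
    (finrank_H_le _ F d ε hε hd0 hd i)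

end Pool.Agent.Results.MP_e2ce73_al.SymmetricMatrices
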